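import Mathlib
import Pool.Agent.H91.OPP.TTB

/-!
# Module ROTM: metric part of the rotations
-/

set_option autoImplicit false

namespace Pool.OPP

namespace H62

theorem norm_eb {n r : ℕ} (hr : r < n) : ‖eb n r‖ = 1 := by
  have h : eb n r = EuclideanSpace.single (⟨r, hr⟩ : Fin n) (1 : ℂ) := by
    ext k
    simp only [eb, EuclideanSpace.single_apply]
    by_cases hk : (k : ℕ) = r
    · have : k = ⟨r, hr⟩ := Fin.ext hk
      simp [hk, this]
    · have : k ≠ ⟨r, hr⟩ := fun h => hk (by rw [h])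
      simp [hk, this]
  rw [h]
  simp

theorem norm_rot {n r : ℕ} (hr : r < n) (u : EuclideanSpace ℂ (Fin n)) (hu : ‖u‖ = 1)
    (h0 : ∀ k : Fin n, (k : ℕ) = r → u k = 0) (θ : ℝ) :
    ‖Real.cos θ • u + Real.sin θ • eb n r‖ = 1 := by
  have h1 : ‖u‖ ^ 2 = 1 := by rw [hu]; norm_num
  have h2 : ‖eb n r‖ ^ 2 = 1 := by rw [norm_eb hr]; norm_num
  rw [EuclideanSpace.norm_sq_eq] at h1 h2
  have h3 : ‖Real.cos θ • u + Real.sin θ • eb n r‖ ^ 2 = 1 := by
    rw [EuclideanSpace.norm_sq_eq]
    have h4 : ∀ k : Fin n, ‖(Real.cos θ • u + Real.sin θ • eb n r) k‖ ^ 2 =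
        Real.cos θ ^ 2 * ‖u k‖ ^ 2 + Real.sin θ ^ 2 * ‖eb n r k‖ ^ 2 := by
      intro k
      by_cases hk : (k : ℕ) = r
      · have := h0 k hk
        simp only [PiLp.add_apply, PiLp.smul_apply, this, smul_zero, zero_add, norm_smul,
          Real.norm_eq_abs, norm_zero]
        rw [mul_pow, sq_abs]
        ring
      · have h5 : eb n r k = 0 := by simp [eb, hk]
        simp only [PiLp.add_apply, PiLp.smul_apply, h5, smul_zero, add_zero, norm_smul,
          Real.norm_eq_abs, norm_zero]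
        rw [mul_pow, sq_abs]
        ring
    rw [Finset.sum_congr rfl fun k _ => h4 k, Finset.sum_add_distrib, ← Finset.mul_sum,
      ← Finset.mul_sum, h1, h2]
    nlinarith [Real.sin_sq_add_cos_sq θ]
  nlinarith [norm_nonneg (Real.cos θ • u + Real.sin θ • eb n r)]

theorem dist_rot {n r : ℕ} (hr : r < n) (u v : EuclideanSpace ℂ (Fin n)) (hv : ‖v‖ = 1)
    (θ θ' δ ε : ℝ) (hd : ‖u - v‖ ≤ ε) (hθ : |θ - θ'| ≤ δ) :
    ‖(Real.cos θ • u + Real.sin θ • eb n r) - (Real.cos θ' • v + Real.sin θ' • eb n r)‖ ≤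
      ε + 2 * δ := by
  have h : (Real.cos θ • u + Real.sin θ • eb n r) - (Real.cos θ' • v + Real.sin θ' • eb n r) =
      Real.cos θ • (u - v) + (Real.cos θ - Real.cos θ') • v +
        (Real.sin θ - Real.sin θ') • eb n r := by
    simp only [smul_sub, sub_smul]
    abel
  rw [h]
  have h1 : ‖Real.cos θ • (u - v)‖ ≤ ε := by
    rw [norm_smul, Real.norm_eq_abs]
    have := Real.abs_cos_le_one θ
    have h5 := norm_nonneg (u - v)
    nlinarith [abs_nonneg (Real.cos θ)]
  have h2 : ‖(Real.cos θ - Real.cos θ') • v‖ ≤ δ := by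
    rw [norm_smul, Real.norm_eq_abs, hv, mul_one]
    exact (Real.abs_cos_sub_cos_le θ θ').trans hθ
  have h3 : ‖(Real.sin θ - Real.sin θ') • eb n r‖ ≤ δ := by
    rw [norm_smul, Real.norm_eq_abs, norm_eb hr, mul_one]
    exact (Real.abs_sin_sub_sin_le θ θ').trans hθ
  calc _ ≤ ‖Real.cos θ • (u - v)‖ + ‖(Real.cos θ - Real.cos θ') • v‖ +
        ‖(Real.sin θ - Real.sin θ') • eb n r‖ := norm_add₃_le
    _ ≤ ε + 2 * δ := by linarith

end H62

theorem rotm : S_ROTM := by
  intro N c ε hε
  constructor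
  · rintro j l ⟨h1, h2⟩
    refine ⟨?_, ?_⟩
    · intro y hy i r hr
      obtain ⟨x, hx, rfl⟩ := List.mem_map.1 hy
      by_cases hij : i = j
      · subst hij
        have := h1 x hx i r hr
        simp [tt, this]
      · simp only [tt, Function.update_of_ne hij]
        exact h1 x hx i r hr
    · intro y hy z hz i
      obtain ⟨x, hx, rfl⟩ := List.mem_map.1 hy
      obtain ⟨x', hx', rfl⟩ := List.mem_map.1 hz
      by_cases hij : i = j
      · subst hij
        have := h2 x hx x' hx' i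
        simp only [tt, Function.update_self]
        rw [Subtype.dist_eq, dist_eq_norm] at this ⊢
        rw [coe_rot, coe_rot, ← smul_sub, norm_smul, norm_om, one_mul]
        exact this
      · simp only [tt, Function.update_of_ne hij]
        exact h2 x hx x' hx' i
  · rintro j L q hj hL l l' ⟨h1, h2⟩ hl'
    have hL' : (0 : ℝ) < L := by exact_mod_cast hL
    -- the rotation is the update
    have key : ∀ x ∈ l, ∀ θ : ℝ,
        (∀ i, i ≠ j → rtt j (c j) θ x i = x i) ∧
        ((rtt j (c j) θ x j : CSph (N j)) : EuclideanSpace ℂ (Fin (N j))) =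
          Real.cos θ • ((x j : EuclideanSpace ℂ (Fin (N j)))) + Real.sin θ • eb (N j) (c j) := by
      intro x hx θ
      have hn := H62.norm_rot hj (x j : EuclideanSpace ℂ (Fin (N j))) (norm_eq_of_mem_sphere _)
        (fun k hk => h1 x hx j k hk.ge) θ
      refine ⟨?_, ?_⟩
      · intro i hij
        rw [rtt, dif_pos hn, Function.update_of_ne hij]
      · rw [rtt, dif_pos hn, Function.update_self]
    have key2 : ∀ y ∈ l', ∃ x ∈ l, ∃ θ : ℝ, y = rtt j (c j) θ x ∧
        (θ = Real.pi / 2 * ((q : ℝ) / (L : ℝ)) ∨ θ = Real.pi / 2 * (((q + 1 : ℕ) : ℝ) / (L : ℝ))) := by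
      intro y hy
      obtain ⟨x, hx, h | h⟩ := hl' y hy
      · exact ⟨x, hx, _, h, Or.inl rfl⟩
      · exact ⟨x, hx, _, h, Or.inr rfl⟩
    have hpi := Real.pi_le_four
    have hpi0 := Real.pi_pos
    have hstep : Real.pi / 2 * (((q + 1 : ℕ) : ℝ) / (L : ℝ)) - Real.pi / 2 * ((q : ℝ) / (L : ℝ)) =
        Real.pi / 2 / L := by
      push_cast
      field_simp
      ring
    have hsm : Real.pi / 2 / L ≤ 2 / L := by
      apply div_le_div_of_nonneg_right _ hL'.le
      linarith
    have hsm0 : 0 ≤ Real.pi / 2 / L := by positivity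
    have hθ : ∀ θ θ' : ℝ,
        (θ = Real.pi / 2 * ((q : ℝ) / (L : ℝ)) ∨ θ = Real.pi / 2 * (((q + 1 : ℕ) : ℝ) / (L : ℝ))) →
        (θ' = Real.pi / 2 * ((q : ℝ) / (L : ℝ)) ∨
          θ' = Real.pi / 2 * (((q + 1 : ℕ) : ℝ) / (L : ℝ))) → |θ - θ'| ≤ 2 / L := by
      rintro θ θ' (rfl | rfl) (rfl | rfl)
      · simp only [sub_self, abs_zero]; positivity
      · rw [abs_sub_comm, hstep, abs_of_nonneg hsm0]; exact hsm
      · rw [hstep, abs_of_nonneg hsm0]; exact hsm
      · simp only [sub_self, abs_zero]; positivity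
    refine ⟨?_, ?_⟩
    · intro y hy i r hr
      obtain ⟨x, hx, θ, rfl, -⟩ := key2 y hy
      obtain ⟨k1, k2⟩ := key x hx θ
      by_cases hij : i = j
      · subst hij
        rw [Function.update_self] at hr
        rw [k2]
        have h3 := h1 x hx i r (by omega)
        have h4 : eb (N i) (c i) r = 0 := by
          have : (r : ℕ) ≠ c i := by omega
          simp [eb, this]
        simp [h3, h4]
      · rw [Function.update_of_ne hij] at hr
        rw [k1 i hij]
        exact h1 x hx i r hr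
    · intro y hy z hz i
      obtain ⟨x, hx, θ, rfl, ht⟩ := key2 y hy
      obtain ⟨x', hx', θ', rfl, ht'⟩ := key2 z hz
      obtain ⟨k1, k2⟩ := key x hx θ
      obtain ⟨k1', k2'⟩ := key x' hx' θ'
      by_cases hij : i = j
      · subst hij
        rw [Subtype.dist_eq, dist_eq_norm, k2, k2']
        have h5 := h2 x hx x' hx' i
        rw [Subtype.dist_eq, dist_eq_norm] at h5
        have h6 := H62.dist_rot hj (x i : EuclideanSpace ℂ (Fin (N i)))
          (x' i : EuclideanSpace ℂ (Fin (N i))) (norm_eq_of_mem_sphere _) θ θ' (2 / L) ε h5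
          (hθ θ θ' ht ht')
        refine h6.trans (le_of_eq ?_)
        ring
      · rw [k1 i hij, k1' i hij]
        have h5 := h2 x hx x' hx' i
        have : (0 : ℝ) ≤ 4 / L := by positivity
        linarith

end Pool.OPP
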