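import Mathlib
import Pool.Agent.H7.OPP.Stmts

/-!
# Module SEP: separability of the algebra
-/

set_option autoImplicit false

namespace Pool.OPP

open scoped Topology ComplexConjugate Uniformity

noncomputable section

theorem SEP_cont (h1 : SGa) (k : ℕ) (s t : JI) (hs : s ∈ JJ k) (ht : t ∈ JJ k) :
    Continuous fun h : C(SS, ℂ) => GG k s t h := by
  have key : ∀ h h' : C(SS, ℂ), ‖GG k s t h - GG k s t h'‖ ≤ ‖h - h'‖ := by
    intro h h'
    obtain ⟨-, -, -, h4, -, -⟩ := h1 k s t hs ht h'
    obtain ⟨-, -, h3, -, -, -⟩ := h1 k s t hs ht h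
    obtain ⟨-, -, -, -, h5, -⟩ := h1 k s t hs ht (h - h')
    have e1 : GG k s t h - GG k s t h' = GG k s t (h - h') := by
      have e2 := h4 (-1)
      have e3 := h3 ((-1 : ℂ) • h')
      rw [← e2] at e3
      have e4 : h - h' = h + (-1 : ℂ) • h' := by
        ext x
        simp [sub_eq_add_neg]
      have e5 : (-1 : ℂ) • GG k s t h' = -GG k s t h' := by
        ext x
        simp
      rw [e4, ← e3, e5, sub_eq_add_neg]
    rw [e1]
    exact h5
  have hl : LipschitzWith 1 fun h : C(SS, ℂ) => GG k s t h := by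
    apply LipschitzWith.of_dist_le_mul
    intro h h'
    rw [dist_eq_norm, dist_eq_norm, NNReal.coe_one, one_mul]
    exact key h h'
  exact hl.continuous

theorem SEP_lev (h1 : SGa) (k : ℕ) : TopologicalSpace.IsSeparable {f : BB | Lev k f} := by
  let Φ : ((JI × JI → C(SS, ℂ))) → BB := fun a => ∑ s ∈ JJ k, ∑ t ∈ JJ k, GG k s t (a (s, t))
  have hΦ : Continuous Φ := by
    refine continuous_finsetSum _ fun s hs => continuous_finsetSum _ fun t ht => ?_
    exact (SEP_cont h1 k s t hs ht).comp (continuous_apply (s, t))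
  have hsep : TopologicalSpace.IsSeparable (Set.range Φ) := TopologicalSpace.isSeparable_range hΦ
  refine hsep.mono ?_
  rintro f ⟨a, -, rfl⟩
  exact ⟨fun p => a p.1 p.2, rfl⟩

theorem sSep (h1 : SGa) (h2 : SLev) : SSep := by
  obtain ⟨-, -, -, -, -, h3⟩ := h2
  have h4 : TopologicalSpace.IsSeparable ((A0 : StarSubalgebra ℂ BB) : Set BB) := by
    have h5 : ((A0 : StarSubalgebra ℂ BB) : Set BB) = ⋃ k : ℕ, {f : BB | Lev k f} := by
      ext f
      simp only [SetLike.mem_coe, Set.mem_iUnion, Set.mem_ofPred_eq]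
      exact h3 f
    rw [h5]
    exact TopologicalSpace.IsSeparable.iUnion fun k => SEP_lev h1 k
  have h8 : TopologicalSpace.IsSeparable ((AA : StarSubalgebra ℂ BB) : Set BB) := by
    have := h4.closure
    rwa [← StarSubalgebra.topologicalClosure_coe] at this
  exact h8.separableSpace

end

end Pool.OPP
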